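import Mathlib
import Pool.Agent.Q67.MSys.Space

/-!
# A non-minimal M-system that is not Li-Yorke sensitive
-/

open Set Filter Topology

namespace Pool.Agent.Results.MP_6bd6f6_an.NotLiYorkeSensitive

variable {X : Type} [MetricSpace X]

/-- A dynamical system on a compact metric space `X`: more than one point, no isolated point,
`T` continuous and onto. -/
structure IsSystem (T : X → X) : Prop where
  compact : CompactSpace X
  nontrivial : Nontrivial X
  no_isolated : ∀ x : X, ¬ IsOpen ({x} : Set X)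
  continuous : Continuous T
  surjective : Function.Surjective T

/-- Topological transitivity. -/
def IsTransitive (T : X → X) : Prop :=
  ∀ U V : Set X, IsOpen U → IsOpen V → U.Nonempty → V.Nonempty → ∃ n : ℕ, (U ∩ T^[n] ⁻¹' V).Nonempty

/-- Nonempty closed `M` with `T M ⊆ M`, without proper nonempty closed subsets with the same property. -/
def IsMinimalSet (T : X → X) (M : Set X) : Prop :=
  (M.Nonempty ∧ IsClosed M ∧ MapsTo T M M) ∧
    ∀ N : Set X, N ⊆ M → N.Nonempty → IsClosed N → MapsTo T N N → N = M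

/-- A point that lies in some minimal set. -/
def IsMinimalPoint (T : X → X) (x : X) : Prop := ∃ M : Set X, IsMinimalSet T M ∧ x ∈ M

/-- A transitive system with a dense set of minimal points. -/
def IsMSystem (T : X → X) : Prop :=
  IsSystem T ∧ IsTransitive T ∧ Dense {x : X | IsMinimalPoint T x}

/-- Li-Yorke sensitivity. -/
def LiYorkeSensitive (T : X → X) : Prop :=
  ∃ δ > (0 : ℝ), ∀ x : X, ∀ U ∈ 𝓝 x, ∃ y ∈ U,
    liminf (fun n : ℕ => dist (T^[n] x) (T^[n] y)) atTop = 0 ∧
    δ < limsup (fun n : ℕ => dist (T^[n] x) (T^[n] y)) atTop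

lemma exists_eta [CompactSpace X] {f : X → ℤ_[2]} (hf : Continuous f) {ε : ℝ} (hε : 0 < ε) :
    ∃ η > 0, ∀ a b : X, dist a b < η → dist (f a) (f b) < ε := by
  obtain ⟨η, hη, hd⟩ := Metric.uniformContinuous_iff.1
    (CompactSpace.uniformContinuous_of_continuous hf) ε hε
  exact ⟨η, hη, fun a b h => hd h⟩

/-- There is an M-system `(X, T)`, not minimal, that is not Li-Yorke sensitive; it has moreover a point
`x` with dense orbit and a neighbourhood `U` of `x` without any `y ≠ x` proximal to `x`. -/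
theorem result : ∃ (X : Type) (_ : MetricSpace X) (T : X → X),
    IsMSystem T ∧ ¬ IsMinimalSet T Set.univ ∧ ¬ LiYorkeSensitive T ∧
    ∃ x : X, Dense (range fun n : ℕ => T^[n] x) ∧ ∃ U ∈ 𝓝 x, ∀ y ∈ U, y ≠ x →
      0 < liminf (fun n : ℕ => dist (T^[n] x) (T^[n] y)) atTop := by
  classical
  let _ : MetricSpace Q67.MSys.X := TopologicalSpace.metrizableSpaceMetric Q67.MSys.X
  have hprox : ∃ U ∈ 𝓝 (Q67.MSys.op 0), ∀ y ∈ U, y ≠ Q67.MSys.op 0 →
      0 < liminf (fun n : ℕ => dist (Q67.MSys.T^[n] (Q67.MSys.op 0)) (Q67.MSys.T^[n] y)) atTop := by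
    refine ⟨{y : Q67.MSys.X | y.1.2 0 = true}, ?_, ?_⟩
    · have ho : IsOpen {y : Q67.MSys.X | y.1.2 0 = true} := by
        have : {y : Q67.MSys.X | y.1.2 0 = true} =
            (fun y : Q67.MSys.X => y.1.2 0) ⁻¹' {true} := by ext; simp
        rw [this]
        exact (isOpen_discrete _).preimage
          ((continuous_apply (0 : ℤ)).comp (continuous_snd.comp continuous_subtype_val))
      refine ho.mem_nhds ?_
      show decide (Q67.MSys.E (0 + 0)) = true
      simpa using Q67.MSys.E.zero
    · intro y hy hne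
      have hz : y.1.1 ≠ 0 := fun h => hne (Q67.MSys.fibre h hy)
      have hcont : Continuous (fun y : Q67.MSys.X => y.1.1) :=
        continuous_fst.comp continuous_subtype_val
      obtain ⟨η, hη, hd⟩ := exists_eta (X := Q67.MSys.X) hcont (norm_pos_iff.2 hz)
      have hlow : ∀ n : ℕ, η ≤ dist (Q67.MSys.T^[n] (Q67.MSys.op 0)) (Q67.MSys.T^[n] y) := by
        intro n
        by_contra hcon
        push Not at hcon
        have := hd _ _ hcon
        simp only [Q67.MSys.iter_fst] at this
        rw [dist_eq_norm] at this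
        have h0 : (Q67.MSys.op 0).1.1 = 0 := by simp [Q67.MSys.op, Q67.MSys.pt]
        rw [h0] at this
        have e : (0 : ℤ_[2]) + n - (y.1.1 + n) = - y.1.1 := by ring
        rw [e, norm_neg] at this
        exact lt_irrefl _ this
      refine lt_of_lt_of_le hη (le_liminf_of_le ?_ (Eventually.of_forall hlow))
      exact IsBoundedUnder.isCoboundedUnder_ge
        ⟨Metric.diam (univ : Set Q67.MSys.X), by
          rw [eventually_map]
          exact Eventually.of_forall fun n =>
            Metric.dist_le_diam_of_mem isCompact_univ.isBounded (mem_univ _) (mem_univ _)⟩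
  refine ⟨Q67.MSys.X, inferInstance, Q67.MSys.T, ⟨⟨inferInstance, ?_, Q67.MSys.no_isolated,
    Q67.MSys.T_continuous, Q67.MSys.T_surjective⟩, fun U V hU hV hUn hVn =>
      Q67.MSys.transitive hU hV hUn hVn, ?_⟩, ?_, ?_, Q67.MSys.op 0, Q67.MSys.dense_forward, hprox⟩
  · exact ⟨Q67.MSys.op 0, Q67.MSys.op 1, fun h => by
      have := Q67.MSys.op_injective h
      omega⟩
  · rw [dense_iff_inter_open]
    intro U hU hUn
    obtain ⟨i, z, hz⟩ := Q67.MSys.exists_pp hU hUn
    refine ⟨_, hz, range (Q67.MSys.pp i), ⟨⟨range_nonempty _,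
      (isCompact_range (Q67.MSys.pp_continuous i)).isClosed, ?_⟩, ?_⟩, mem_range_self z⟩
    · rintro _ ⟨v, rfl⟩
      exact ⟨v + 1, (Q67.MSys.T_pp i v).symm⟩
    · intro N h1 h2 h3 h4
      exact Q67.MSys.pp_minimal i h1 h2 h3 h4
  · intro h
    have hu := h.2 (range (Q67.MSys.pp 0)) (subset_univ _) (range_nonempty _)
      (isCompact_range (Q67.MSys.pp_continuous 0)).isClosed (by
        rintro _ ⟨v, rfl⟩
        exact ⟨v + 1, (Q67.MSys.T_pp 0 v).symm⟩)
    exact Q67.MSys.op_zero_not_mem 0 (hu ▸ mem_univ _)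
  · rintro ⟨δ, hδ, h⟩
    obtain ⟨U, hU, hUy⟩ := hprox
    obtain ⟨y, hy, h1, h2⟩ := h _ U hU
    by_cases hne : y = Q67.MSys.op 0
    · subst hne
      simp only [dist_self] at h2
      rw [limsup_const] at h2
      linarith
    · have := hUy y hy hne
      rw [h1] at this
      exact lt_irrefl _ this

end Pool.Agent.Results.MP_6bd6f6_an.NotLiYorkeSensitive
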